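import Mathlib
import Pool.Agent.Lib.MP_26a019_lc.Nest.Core
import Pool.Agent.Lib.MP_26a019_lc.Nest.QFinal

set_option autoImplicit false

open Finset Classical

namespace Pool.Agent.Results.MP_26a019_lc.DeltaPlusTwo

open Pool.Agent.Kempe Pool.Agent.KempeMix Pool.Agent.Nest

/-- The mixing time of Glauber dynamics on the proper colourings of `G` with the colour set `C`:
the least `t` such that, from every starting colouring, the law after `t` steps is within total
variation distance `1 / 4` of the uniform law. -/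
noncomputable def tmix {V : Type} [Fintype V] (G : SimpleGraph V) (C : Type) [Fintype C] : ℕ :=
  sInf {t : ℕ | ∀ f0 : {f : V → C // f ∈ PC G C}, tvd G C t f0 ≤ 1 / 4}

/-- The distance to the uniform law does not increase in one step. -/
theorem tvd_succ {V C : Type} [Fintype V] [Fintype C] [Nonempty V] (G : SimpleGraph V) (t : ℕ)
    (f0 : {f : V → C // f ∈ PC G C}) : tvd G C (t + 1) f0 ≤ tvd G C t f0 := by
  have hsub : ∀ F : (V → C) → ℝ, ∑ f ∈ PC G C, F f =
      ∑ x : {f : V → C // f ∈ PC G C}, F x.1 := fun F =>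
    Finset.sum_subtype (PC G C) (fun x => Iff.rfl) F
  have hs : ∀ x y, GM G C x y = GM G C y x := fun x y => glauber_symm G x.1 y.1 x.2 y.2
  have hr : ∀ x, ∑ y, GM G C x y = 1 := by
    intro x
    rw [← MMixaux.row_sum G x.1 x.2, hsub]
    rfl
  have h0 : ∀ x y, 0 ≤ GM G C x y := by
    intro x y
    unfold GM glauber
    refine mul_nonneg (by positivity) (sum_nonneg fun v _ => ?_)
    split_ifs
    · positivity
    · exact le_refl 0
  unfold tvd
  refine mul_le_mul_of_nonneg_left ?_ (by norm_num)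
  set c : ℝ := 1 / ((PC G C).card : ℝ) with hc
  calc ∑ y, |((GM G C) ^ (t + 1)) f0 y - c|
      = ∑ y, |∑ z, GM G C y z * (((GM G C) ^ t) f0 z - c)| :=
        sum_congr rfl fun y _ => by rw [MMixaux.rec_abs (GM G C) hs hr f0 c t y]
    _ ≤ ∑ y, ∑ z, GM G C y z * |((GM G C) ^ t) f0 z - c| := by
        refine sum_le_sum fun y _ => le_trans (abs_sum_le_sum_abs _ _) ?_
        refine sum_le_sum fun z _ => ?_
        rw [abs_mul, abs_of_nonneg (h0 y z)]
    _ = ∑ z, |((GM G C) ^ t) f0 z - c| := by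
        rw [sum_comm]
        refine sum_congr rfl fun z _ => ?_
        rw [← sum_mul]
        have : ∑ y, GM G C y z = 1 := by
          rw [← hr z]
          exact sum_congr rfl fun y _ => hs y z
        rw [this, one_mul]

/-- For all integers `Δ ≥ 0` and `q ≥ Δ + 2` and every graph `G` with `n ≥ 1` vertices and all
degrees at most `Δ`, the mixing time of Glauber dynamics on the proper `q`-colourings of `G` is at
most `2 ^ (q + 1) * q ^ (3 * q - 2) * n ^ q`, and the law is within total variation distance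
`1 / 4` of the uniform law, from every starting colouring, at every time from the mixing
time on. -/
theorem result (q Δ : ℕ) (hq : Δ + 2 ≤ q) (V C : Type) [Fintype V] [Fintype C] [Nonempty V]
    (hC : Fintype.card C = q) (G : SimpleGraph V)
    (hG : ∀ v, (univ.filter (fun u => G.Adj v u)).card ≤ Δ) :
    tmix G C ≤ 2 ^ (q + 1) * q ^ (3 * q - 2) * Fintype.card V ^ q ∧
    ∀ t : ℕ, tmix G C ≤ t → ∀ f0 : {f : V → C // f ∈ PC G C}, tvd G C t f0 ≤ 1 / 4 := by
  have hn1 : 1 ≤ Fintype.card V := Fintype.card_pos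
  set n := Fintype.card V with hn
  have hle : 2 * (q : ℝ) ^ (3 * q - 2) * ((n : ℝ) + 1) ^ q ≤
      ((2 ^ (q + 1) * q ^ (3 * q - 2) * n ^ q : ℕ) : ℝ) := by
    have h1 : ((n : ℝ) + 1) ^ q ≤ (2 * (n : ℝ)) ^ q := by
      apply pow_le_pow_left₀ (by positivity)
      have : (1 : ℝ) ≤ n := by exact_mod_cast hn1
      linarith
    push_cast
    calc 2 * (q : ℝ) ^ (3 * q - 2) * ((n : ℝ) + 1) ^ q
        ≤ 2 * (q : ℝ) ^ (3 * q - 2) * (2 * (n : ℝ)) ^ q :=
          mul_le_mul_of_nonneg_left h1 (by positivity)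
      _ = 2 ^ (q + 1) * (q : ℝ) ^ (3 * q - 2) * (n : ℝ) ^ q := by rw [mul_pow]; ring
  have hmem : 2 ^ (q + 1) * q ^ (3 * q - 2) * n ^ q ∈
      {t : ℕ | ∀ f0 : {f : V → C // f ∈ PC G C}, tvd G C t f0 ≤ 1 / 4} := fun f0 =>
    mixing_of_core (fun I hI ρ hρ g => core I hI ρ (fun u _ => hρ u) g) q Δ hq hC G hG _ hle f0
  refine ⟨Nat.sInf_le hmem, fun t ht f0 => ?_⟩
  induction t, ht using Nat.le_induction with
  | base => exact Nat.sInf_mem ⟨_, hmem⟩ f0
  | succ t _ ih => exact le_trans (tvd_succ G t f0) ih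

end Pool.Agent.Results.MP_26a019_lc.DeltaPlusTwo
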